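import Mathlib

set_option autoImplicit false

namespace Pool.Agent.Lib.ZFCForcing

/-- First-order formulas of set theory with free variables among `Fin n` (de Bruijn indices). -/
inductive Fm : ℕ → Type
  | mem {n : ℕ} (i j : Fin n) : Fm n
  | eq {n : ℕ} (i j : Fin n) : Fm n
  | neg {n : ℕ} (φ : Fm n) : Fm n
  | and {n : ℕ} (φ ψ : Fm n) : Fm n
  | all {n : ℕ} (φ : Fm (n + 1)) : Fm n

/-- Tarski satisfaction in the structure `(M, ∈)`. -/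
def Sat (M : ZFSet.{0}) : {n : ℕ} → Fm n → (Fin n → ZFSet.{0}) → Prop
  | _, Fm.mem i j, v => v i ∈ v j
  | _, Fm.eq i j, v => v i = v j
  | _, Fm.neg φ, v => ¬ Sat M φ v
  | _, Fm.and φ ψ, v => Sat M φ v ∧ Sat M ψ v
  | _, Fm.all φ, v => ∀ x ∈ M, Sat M φ (Fin.cons x v)

/-- `M` is a transitive set model of ZFC. Extensionality and Foundation hold in every
transitive set; Replacement is stated in the stronger form of Collection. -/
structure IsZFC (M : ZFSet.{0}) : Prop where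
  trans : M.IsTransitive
  pairing : ∀ a ∈ M, ∀ b ∈ M, ({a, b} : ZFSet) ∈ M
  union : ∀ a ∈ M, ZFSet.sUnion a ∈ M
  power : ∀ a ∈ M, a.powerset ∩ M ∈ M
  infinity : ZFSet.omega ∈ M
  separation : ∀ (n : ℕ) (φ : Fm (n + 1)) (v : Fin n → ZFSet), (∀ i, v i ∈ M) →
    ∀ a ∈ M, a.sep (fun x => Sat M φ (Fin.cons x v)) ∈ M
  collection : ∀ (n : ℕ) (φ : Fm (n + 2)) (v : Fin n → ZFSet), (∀ i, v i ∈ M) →
    ∀ a ∈ M, (∀ x ∈ a, ∃ y ∈ M, Sat M φ (Fin.cons y (Fin.cons x v))) →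
      ∃ b ∈ M, ∀ x ∈ a, ∃ y ∈ b, Sat M φ (Fin.cons y (Fin.cons x v))
  choice : ∀ a ∈ M, ∅ ∉ a → ∃ f ∈ M, ZFSet.IsFunc a (ZFSet.sUnion a) f ∧
    ∀ x y : ZFSet, ZFSet.pair x y ∈ f → y ∈ x

end Pool.Agent.Lib.ZFCForcing
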