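import Mathlib

set_option autoImplicit false

namespace Pool.Agent.Lib.ZFCForcing

universe u v

/-- Book-keeping: a countable set `S` and a descending chain meeting countably many
density requirements with arguments and witnesses in `S`. -/
theorem henkin {P : Type u} {X : Type v} [Preorder P] [Nonempty X] {I : Type} [Countable I]
    (ar : I → Type) [∀ i, Finite (ar i)] (Ψ : ∀ i, (ar i → X) → P → (ℕ → X) → Prop)
    (hΨ : ∀ i a p, ∃ q, q ≤ p ∧ ∃ w, Ψ i a q w) (p0 : P) :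
    ∃ (S : Set X) (c : ℕ → P), S.Countable ∧ Antitone c ∧ c 0 ≤ p0 ∧
      ∀ i a, (∀ k, a k ∈ S) → ∀ N₀, ∃ n, N₀ ≤ n ∧ ∃ w, (∀ m, w m ∈ S) ∧ Ψ i a (c n) w := by
  classical
  rcases isEmpty_or_nonempty I with hI | hI
  · exact ⟨∅, fun _ => p0, Set.countable_empty, antitone_const, le_rfl, fun i => isEmptyElim i⟩
  have : Nonempty (Σ i, (ar i → ℕ × ℕ)) := ⟨⟨hI.some, fun _ => (0, 0)⟩⟩
  obtain ⟨e, he⟩ := exists_surjective_nat (Σ i, (ar i → ℕ × ℕ))
  choose nq hnq nw hnw using hΨ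
  let arg : (n : ℕ) → (ℕ → ℕ → X) → (ar (e (Nat.unpair n).1).1 → X) :=
    fun n W j => W ((e (Nat.unpair n).1).2 j).1 ((e (Nat.unpair n).1).2 j).2
  let st : ℕ → P × (ℕ → ℕ → X) := fun n => Nat.rec (p0, fun _ _ => Classical.arbitrary X)
    (fun n s => (nq _ (arg n s.2) s.1, Function.update s.2 n (nw _ (arg n s.2) s.1))) n
  have hst1 : ∀ n, (st (n + 1)).1 = nq _ (arg n (st n).2) (st n).1 := fun n => rfl
  have hst2 : ∀ n, (st (n + 1)).2 =
    Function.update (st n).2 n (nw _ (arg n (st n).2) (st n).1) := fun n => rfl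
  have hstab : ∀ m n, m < n → (st n).2 m = (st (m + 1)).2 m := by
    intro m n hmn
    induction n with
    | zero => omega
    | succ n ih =>
      rcases Nat.lt_succ_iff_lt_or_eq.1 hmn with h | h
      · rw [hst2, Function.update_of_ne h.ne, ih h]
      · subst h; rfl
  refine ⟨Set.range (fun x : ℕ × ℕ => (st (x.1 + 1)).2 x.1 x.2), fun n => (st n).1,
    Set.countable_range _, antitone_nat_of_succ_le (fun n => ?_), le_rfl, fun i a ha N₀ => ?_⟩
  · rw [hst1]; exact hnq _ _ _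
  · choose t ht using ha
    obtain ⟨k, hk⟩ := he ⟨i, t⟩
    obtain ⟨N, hN0, hN⟩ : ∃ N, N₀ ≤ N ∧ ∀ j, (t j).1 < N := by
      obtain ⟨N, hN⟩ := (Set.finite_range (fun j => (t j).1)).bddAbove
      exact ⟨max N₀ (N + 1), le_max_left _ _,
        fun j => lt_of_lt_of_le (Nat.lt_succ_of_le (hN ⟨j, rfl⟩)) (le_max_right _ _)⟩
    have hn1 : (Nat.unpair (Nat.pair k N)).1 = k := by simp
    have hn2 : N ≤ Nat.pair k N := Nat.right_le_pair k N
    set n := Nat.pair k N with hn
    have key : ∀ (z : Σ i, (ar i → ℕ × ℕ)), e (Nat.unpair n).1 = z →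
        Ψ z.1 (fun j => (st n).2 (z.2 j).1 (z.2 j).2) (st (n + 1)).1 ((st (n + 1)).2 n) := by
      intro z hz
      subst hz
      rw [hst1, hst2, Function.update_self]
      exact hnw _ _ _
    have h1 := key ⟨i, t⟩ (by rw [hn1, hk])
    have h2 : (fun j => (st n).2 (t j).1 (t j).2) = a := by
      funext j
      rw [hstab _ _ (lt_of_lt_of_le (hN j) hn2)]
      exact ht j
    refine ⟨n + 1, by omega, (st (n + 1)).2 n, fun m => ⟨(n, m), rfl⟩, ?_⟩
    simpa only [h2] using h1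

end Pool.Agent.Lib.ZFCForcing
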