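import Mathlib
import Pool.Agent.Lib.ZFCForcing.Defs

set_option autoImplicit false

namespace Pool.Agent.Lib.ZFCForcing

/-- Forcing names over a set of conditions `P`. -/
inductive Name (P : Type) : Type 1
  | mk (ι : Type) (A : ι → Name P) (c : ι → P) : Name P

namespace Name

variable {P : Type}

def ι : Name P → Type
  | mk ι _ _ => ι

def A : (τ : Name P) → τ.ι → Name P
  | mk _ A _ => A

def c : (τ : Name P) → τ.ι → P
  | mk _ _ c => c

@[simp] theorem mk_ι (ι : Type) (A : ι → Name P) (c : ι → P) : (mk ι A c).ι = ι := rfl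
@[simp] theorem mk_A (ι : Type) (A : ι → Name P) (c : ι → P) : (mk ι A c).A = A := rfl
@[simp] theorem mk_c (ι : Type) (A : ι → Name P) (c : ι → P) : (mk ι A c).c = c := rfl

theorem induct {C : Name P → Prop} (h : ∀ τ : Name P, (∀ i, C (τ.A i)) → C τ) (τ : Name P) :
    C τ := by
  induction τ with
  | mk ι A c ih => exact h _ ih

end Name

open Name

variable {P : Type} [Preorder P]

/-- `p` forces `σ = τ`. -/
def FEq : Name P → Name P → P → Prop
  | Name.mk _ A c, Name.mk _ A' c', p =>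
    (∀ i q, q ≤ p → q ≤ c i → ∃ r, r ≤ q ∧ ∃ j, r ≤ c' j ∧ FEq (A i) (A' j) r) ∧
    (∀ j q, q ≤ p → q ≤ c' j → ∃ r, r ≤ q ∧ ∃ i, r ≤ c i ∧ FEq (A i) (A' j) r)

/-- `p` forces `σ ∈ τ`. -/
def FMem (σ τ : Name P) (p : P) : Prop :=
  ∀ q, q ≤ p → ∃ r, r ≤ q ∧ ∃ j, r ≤ τ.c j ∧ FEq σ (τ.A j) r

theorem FEq_def (σ τ : Name P) (p : P) : FEq σ τ p ↔
    (∀ i q, q ≤ p → q ≤ σ.c i → ∃ r, r ≤ q ∧ ∃ j, r ≤ τ.c j ∧ FEq (σ.A i) (τ.A j) r) ∧
    (∀ j q, q ≤ p → q ≤ τ.c j → ∃ r, r ≤ q ∧ ∃ i, r ≤ σ.c i ∧ FEq (σ.A i) (τ.A j) r) := by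
  cases σ; cases τ; rfl

theorem FEq.mono {σ τ : Name P} {p q : P} (h : FEq σ τ p) (hq : q ≤ p) : FEq σ τ q := by
  rw [FEq_def] at h ⊢
  exact ⟨fun i r hr => h.1 i r (hr.trans hq), fun i r hr => h.2 i r (hr.trans hq)⟩

theorem FEq.dense {σ τ : Name P} {p : P} (h : ∀ q, q ≤ p → ∃ r, r ≤ q ∧ FEq σ τ r) :
    FEq σ τ p := by
  rw [FEq_def]
  constructor
  · intro i q hq hc
    obtain ⟨r, hr, h1⟩ := h q hq
    obtain ⟨s, hs, h2⟩ := ((FEq_def _ _ _).1 h1).1 i r le_rfl (hr.trans hc)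
    exact ⟨s, hs.trans hr, h2⟩
  · intro i q hq hc
    obtain ⟨r, hr, h1⟩ := h q hq
    obtain ⟨s, hs, h2⟩ := ((FEq_def _ _ _).1 h1).2 i r le_rfl (hr.trans hc)
    exact ⟨s, hs.trans hr, h2⟩

theorem FEq.refl (σ : Name P) : ∀ p : P, FEq σ σ p := by
  induction σ using Name.induct with
  | h σ ih =>
    intro p
    rw [FEq_def]
    exact ⟨fun i q _ hc => ⟨q, le_rfl, i, hc, ih i q⟩, fun i q _ hc => ⟨q, le_rfl, i, hc, ih i q⟩⟩

theorem FEq.symm {σ : Name P} : ∀ {τ : Name P} {p : P}, FEq σ τ p → FEq τ σ p := by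
  induction σ using Name.induct with
  | h σ ih =>
    intro τ p h
    rw [FEq_def] at h ⊢
    constructor
    · intro j q hq hc
      obtain ⟨r, hr, i, hi, h1⟩ := h.2 j q hq hc
      exact ⟨r, hr, i, hi, ih i h1⟩
    · intro i q hq hc
      obtain ⟨r, hr, j, hj, h1⟩ := h.1 i q hq hc
      exact ⟨r, hr, j, hj, ih i h1⟩

theorem FEq.trans {σ : Name P} :
    ∀ {τ ρ : Name P} {p : P}, FEq σ τ p → FEq τ ρ p → FEq σ ρ p := by
  induction σ using Name.induct with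
  | h σ ih =>
    intro τ ρ p h h'
    rw [FEq_def] at h h' ⊢
    constructor
    · intro i q hq hc
      obtain ⟨r, hr, j, hj, h1⟩ := h.1 i q hq hc
      obtain ⟨s, hs, k, hk, h2⟩ := h'.1 j r (hr.trans hq) hj
      exact ⟨s, hs.trans hr, k, hk, ih i (h1.mono hs) h2⟩
    · intro k q hq hc
      obtain ⟨r, hr, j, hj, h1⟩ := h'.2 k q hq hc
      obtain ⟨s, hs, i, hi, h2⟩ := h.2 j r (hr.trans hq) hj
      exact ⟨s, hs.trans hr, i, hi, ih i h2 (h1.mono hs)⟩

theorem FMem.mono {σ τ : Name P} {p q : P} (h : FMem σ τ p) (hq : q ≤ p) : FMem σ τ q :=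
  fun r hr => h r (hr.trans hq)

theorem FMem.dense {σ τ : Name P} {p : P} (h : ∀ q, q ≤ p → ∃ r, r ≤ q ∧ FMem σ τ r) :
    FMem σ τ p := by
  intro q hq
  obtain ⟨r, hr, h1⟩ := h q hq
  obtain ⟨s, hs, h2⟩ := h1 r le_rfl
  exact ⟨s, hs.trans hr, h2⟩

theorem FMem.of_eq {σ τ : Name P} {p : P} (j : τ.ι) (hj : p ≤ τ.c j) (h : FEq σ (τ.A j) p) :
    FMem σ τ p :=
  fun q hq => ⟨q, le_rfl, j, hq.trans hj, h.mono hq⟩

theorem FMem.self {τ : Name P} {p : P} (j : τ.ι) (hj : p ≤ τ.c j) : FMem (τ.A j) τ p :=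
  FMem.of_eq j hj (FEq.refl _ _)

theorem FMem.congr_left {σ σ' τ : Name P} {p : P} (h : FMem σ τ p) (he : FEq σ σ' p) :
    FMem σ' τ p := by
  intro q hq
  obtain ⟨r, hr, j, hj, h1⟩ := h q hq
  exact ⟨r, hr, j, hj, (he.mono (hr.trans hq)).symm.trans h1⟩

theorem FMem.congr_right {σ τ τ' : Name P} {p : P} (h : FMem σ τ p) (he : FEq τ τ' p) :
    FMem σ τ' p := by
  intro q hq
  obtain ⟨r, hr, j, hj, h1⟩ := h q hq
  obtain ⟨s, hs, k, hk, h2⟩ := ((FEq_def _ _ _).1 he).1 j r (hr.trans hq) hj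
  exact ⟨s, hs.trans hr, k, hk, (h1.mono hs).trans h2⟩

theorem FEq_iff (σ τ : Name P) (p : P) : FEq σ τ p ↔
    (∀ i q, q ≤ p → q ≤ σ.c i → FMem (σ.A i) τ q) ∧
    (∀ j q, q ≤ p → q ≤ τ.c j → FMem (τ.A j) σ q) := by
  constructor
  · intro h
    exact ⟨fun i q hq hc => (FMem.self i hc).congr_right (h.mono hq),
      fun j q hq hc => (FMem.self j hc).congr_right (h.symm.mono hq)⟩
  · rintro ⟨h1, h2⟩
    rw [FEq_def]
    refine ⟨fun i q hq hc => h1 i q hq hc q le_rfl, fun j q hq hc => ?_⟩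
    obtain ⟨r, hr, i, hi, h3⟩ := h2 j q hq hc q le_rfl
    exact ⟨r, hr, i, hi, h3.symm⟩

/-- The forcing relation. -/
def Forces :
    {n : ℕ} → Fm n → (Fin n → Name P) → P → Prop
  | _, Fm.mem i j, v, p => FMem (v i) (v j) p
  | _, Fm.eq i j, v, p => FEq (v i) (v j) p
  | _, Fm.neg φ, v, p => ∀ q, q ≤ p → ¬ Forces φ v q
  | _, Fm.and φ ψ, v, p => Forces φ v p ∧ Forces ψ v p
  | _, Fm.all φ, v, p => ∀ τ, Forces φ (Fin.cons τ v) p

theorem Forces.mono {n : ℕ} {φ : Fm n} :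
    ∀ {v : Fin n → Name P} {p q : P}, Forces φ v p → q ≤ p → Forces φ v q := by
  induction φ with
  | mem i j => exact fun h hq => FMem.mono h hq
  | eq i j => exact fun h hq => FEq.mono h hq
  | neg φ _ => exact fun h hq r hr => h r (hr.trans hq)
  | and φ ψ ih1 ih2 => exact fun h hq => ⟨ih1 h.1 hq, ih2 h.2 hq⟩
  | all φ ih => exact fun h hq τ => ih (h τ) hq

theorem Forces.dense {n : ℕ} {φ : Fm n} :
    ∀ {v : Fin n → Name P} {p : P}, (∀ q, q ≤ p → ∃ r, r ≤ q ∧ Forces φ v r) →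
      Forces φ v p := by
  induction φ with
  | mem i j => exact fun h => FMem.dense h
  | eq i j => exact fun h => FEq.dense h
  | neg φ _ =>
    intro v p h q hq hf
    obtain ⟨r, hr, h1⟩ := h q hq
    exact h1 r le_rfl (hf.mono hr)
  | and φ ψ ih1 ih2 =>
    intro v p h
    exact ⟨ih1 fun q hq => (h q hq).imp fun r hr => ⟨hr.1, hr.2.1⟩,
      ih2 fun q hq => (h q hq).imp fun r hr => ⟨hr.1, hr.2.2⟩⟩
  | all φ ih =>
    intro v p h τ
    exact ih fun q hq => (h q hq).imp fun r hr => ⟨hr.1, hr.2 τ⟩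

theorem Forces.congr {n : ℕ} {φ : Fm n} :
    ∀ {v w : Fin n → Name P} {p : P}, (∀ i, FEq (v i) (w i) p) → Forces φ v p →
      Forces φ w p := by
  induction φ with
  | mem i j => exact fun he h => (FMem.congr_left h (he i)).congr_right (he j)
  | eq i j => exact fun he h => (he i).symm.trans (FEq.trans h (he j))
  | neg φ ih =>
    intro v w p he h q hq hf
    exact h q hq (ih (fun i => ((he i).mono hq).symm) hf)
  | and φ ψ ih1 ih2 => exact fun he h => ⟨ih1 he h.1, ih2 he h.2⟩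
  | all φ ih =>
    intro v w p he h τ
    refine ih (fun i => ?_) (h τ)
    refine Fin.cases ?_ (fun i => ?_) i
    · exact FEq.refl _ _
    · exact he i

theorem FEq_of_match {σ τ : Name P} {p : P}
    (h1 : ∀ i, ∃ j, σ.c i ≤ τ.c j ∧ FEq (σ.A i) (τ.A j) p)
    (h2 : ∀ j, ∃ i, τ.c j ≤ σ.c i ∧ FEq (σ.A i) (τ.A j) p) : FEq σ τ p := by
  rw [FEq_def]
  constructor
  · intro i q hq hc
    obtain ⟨j, hj, h⟩ := h1 i
    exact ⟨q, le_rfl, j, hc.trans hj, h.mono hq⟩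
  · intro j q hq hc
    obtain ⟨i, hi, h⟩ := h2 j
    exact ⟨q, le_rfl, i, hc.trans hi, h.mono hq⟩

/-- A property of a name and a condition that behaves like a forced statement. -/
structure Good (Q : Name P → P → Prop) : Prop where
  mono : ∀ {σ p q}, Q σ p → q ≤ p → Q σ q
  dense : ∀ {σ p}, (∀ q, q ≤ p → ∃ r, r ≤ q ∧ Q σ r) → Q σ p
  congr : ∀ {σ σ' p}, Q σ p → FEq σ σ' p → Q σ' p

/-- The name for the subset of `a` cut out by `Q`. -/
def sepN (a : Name P) (Q : Name P → P → Prop) : Name P :=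
  Name.mk {x : a.ι × P // x.2 ≤ a.c x.1 ∧ Q (a.A x.1) x.2} (fun x => a.A x.1.1) (fun x => x.1.2)

theorem FMem_sepN {a σ : Name P} {Q : Name P → P → Prop} (hQ : Good Q) {p : P} :
    FMem σ (sepN a Q) p ↔ FMem σ a p ∧ Q σ p := by
  constructor
  · intro h
    constructor
    · intro q hq
      obtain ⟨r, hr, ⟨⟨i, s⟩, hs1, hs2⟩, hj, h1⟩ := h q hq
      exact ⟨r, hr, i, le_trans hj hs1, h1⟩
    · refine hQ.dense fun q hq => ?_
      obtain ⟨r, hr, ⟨⟨i, s⟩, hs1, hs2⟩, hj, h1⟩ := h q hq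
      exact ⟨r, hr, hQ.congr (hQ.mono hs2 hj) h1.symm⟩
  · rintro ⟨h1, h2⟩ q hq
    obtain ⟨r, hr, i, hi, h3⟩ := h1 q hq
    exact ⟨r, hr, ⟨⟨i, r⟩, hi, hQ.congr (hQ.mono h2 (hr.trans hq)) h3⟩, le_rfl, h3⟩

/-- Extensionality for forced equality. -/
theorem FEq_ext {σ τ : Name P} {p : P}
    (h : ∀ ρ q, q ≤ p → (FMem ρ σ q ↔ FMem ρ τ q)) : FEq σ τ p := by
  rw [FEq_iff]
  exact ⟨fun i q hq hc => (h _ q hq).1 (FMem.self i hc),
    fun j q hq hc => (h _ q hq).2 (FMem.self j hc)⟩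

theorem good_forces {n : ℕ} (φ : Fm (n + 1)) (v : Fin n → Name P) :
    Good (fun σ p => Forces φ (Fin.cons σ v) p) where
  mono h hq := h.mono hq
  dense h := Forces.dense h
  congr h he := by
    refine Forces.congr (fun i => ?_) h
    refine Fin.cases ?_ (fun i => ?_) i
    · exact he
    · exact FEq.refl _ _

theorem exists_not_FMem {σ τ : Name P} {p : P} (h : ¬ FMem σ τ p) :
    ∃ q, q ≤ p ∧ ∀ r, r ≤ q → ¬ FMem σ τ r := by
  by_contra h'
  push Not at h'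
  exact h (FMem.dense h')

variable [OrderTop P]

/-- The name whose elements are the names of a family. -/
def fam {κ : Type} (ρ : κ → Name P) : Name P := Name.mk κ ρ (fun _ => ⊤)

theorem fam_congr {κ : Type} {ρ ρ' : κ → Name P} {p : P} (h : ∀ k, FEq (ρ k) (ρ' k) p) :
    FEq (fam ρ) (fam ρ') p :=
  FEq_of_match (fun k => ⟨k, le_top, h k⟩) (fun k => ⟨k, le_top, h k⟩)

theorem FMem_fam {κ : Type} (ρ : κ → Name P) (k : κ) (p : P) : FMem (ρ k) (fam ρ) p :=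
  FMem.self (τ := fam ρ) k le_top

/-- Unordered pair. -/
def up (σ τ : Name P) : Name P := fam (fun b : Bool => cond b σ τ)

/-- Ordered pair. -/
def op (σ τ : Name P) : Name P := up (up σ σ) (up σ τ)

theorem up_congr {σ σ' τ τ' : Name P} {p : P} (h : FEq σ σ' p) (h' : FEq τ τ' p) :
    FEq (up σ τ) (up σ' τ') p :=
  fam_congr fun b => by cases b <;> assumption

theorem op_congr {σ σ' τ τ' : Name P} {p : P} (h : FEq σ σ' p) (h' : FEq τ τ' p) :
    FEq (op σ τ) (op σ' τ') p :=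
  up_congr (up_congr h h) (up_congr h h')

/-- The canonical name of a natural number. -/
def natN (P : Type) [Preorder P] [OrderTop P] (n : ℕ) : Name P :=
  fam (fun i : Fin n => natN P i.1)
termination_by n
decreasing_by exact i.2

theorem natN_eq (n : ℕ) : natN P n = fam (fun i : Fin n => natN P i.1) := by
  rw [natN]

theorem natN_inj (n : ℕ) : ∀ (m : ℕ) (p : P), FEq (natN P n) (natN P m) p → n = m := by
  induction n using Nat.strong_induction_on with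
  | h n ih =>
    intro m p h
    rw [natN_eq n, natN_eq m, FEq_def] at h
    have h1 : ∀ i, i < n → i < m := by
      intro i hi
      obtain ⟨r, _, j, _, hj⟩ := h.1 ⟨i, hi⟩ p le_rfl le_top
      have : i = (j : Fin m).1 := ih i hi _ r hj
      rw [this]; exact (j : Fin m).2
    have h2 : ∀ j, j < m → j < n := by
      intro j hj
      obtain ⟨r, _, i, _, hi⟩ := h.2 ⟨j, hj⟩ p le_rfl le_top
      have : (i : Fin n).1 = j := ih _ (i : Fin n).2 _ r hi
      rw [← this]; exact (i : Fin n).2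
    rcases lt_trichotomy n m with h3 | h3 | h3
    · exact absurd (h2 n h3) (lt_irrefl _)
    · exact h3
    · exact absurd (h1 m h3) (lt_irrefl _)

end Pool.Agent.Lib.ZFCForcing
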