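import Mathlib
import Pool.Agent.Lib.ZFCForcing.Names
import Pool.Agent.Lib.ZFCForcing.Henkin

set_option autoImplicit false

namespace Pool.Agent.Lib.ZFCForcing

open Name

variable {P : Type} [Preorder P] [OrderTop P]

open Classical in
/-- A chosen witness for an existential statement forced by `p`. -/
noncomputable def wit {n : ℕ} (ψ : Fm (n + 1)) (v : Fin n → Name P) (p : P) : Name P :=
  if h : ∃ τ, Forces ψ (Fin.cons τ v) p then h.choose else natN P 0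

theorem forces_wit {n : ℕ} {ψ : Fm (n + 1)} {v : Fin n → Name P} {p : P} {τ : Name P}
    (h2 : Forces ψ (Fin.cons τ v) p) : Forces ψ (Fin.cons (wit ψ v p) v) p := by
  have h : ∃ τ, Forces ψ (Fin.cons τ v) p := ⟨τ, h2⟩
  unfold wit
  rw [dif_pos h]
  exact h.choose_spec

def subN (a : Name P) (T : Set (a.ι × P)) : Name P :=
  Name.mk {x : a.ι × P // x ∈ T} (fun x => a.A x.1.1) (fun x => x.1.2)

def powN (a : Name P) : Name P := fam (fun T : Set (a.ι × P) => subN a T)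

/-- The names of elements of elements of `a`. -/
def elN (a : Name P) (x : Σ i : a.ι, (a.A i).ι) : Name P := (a.A x.1).A x.2

def unionN (a : Name P) : Name P := fam (elN a)

noncomputable def collN {n : ℕ} (φ : Fm (n + 2)) (v : Fin n → Name P) (a : Name P) : Name P :=
  fam (fun x : a.ι × P => wit φ (Fin.cons (a.A x.1) v) x.2)

def sepF {n : ℕ} (φ : Fm (n + 1)) (v : Fin n → Name P) (a : Name P) : Name P :=
  sepN a (fun σ p => Forces φ (Fin.cons σ v) p)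

/-- `p` forces that `elN a k` is the least element of `σ`. -/
def Least (a σ : Name P) (k : Σ i : a.ι, (a.A i).ι) (p : P) : Prop :=
  FMem (elN a k) σ p ∧ ∀ k', WellOrderingRel k' k → ∀ q, q ≤ p → ¬ FMem (elN a k') σ q

/-- A name for a choice function on `a`. -/
def chN (a : Name P) : Name P :=
  Name.mk {x : a.ι × (Σ i : a.ι, (a.A i).ι) × P // x.2.2 ≤ a.c x.1 ∧ Least a (a.A x.1) x.2.1 x.2.2}
    (fun x => op (a.A x.1.1) (elN a x.1.2.1)) (fun x => x.1.2.2)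

/-- A set `S` of names and a filter `D` of conditions that is generic enough for `S`. -/
structure Gen (S : Set (Name P)) (D : Set P) : Prop where
  upc : ∀ p ∈ D, ∀ q, p ≤ q → q ∈ D
  dir : ∀ p ∈ D, ∀ q ∈ D, ∃ r ∈ D, r ≤ p ∧ r ≤ q
  top : ⊤ ∈ D
  mem_dec : ∀ σ ∈ S, ∀ τ ∈ S, ∃ p ∈ D, (∀ q, q ≤ p → ¬ FMem σ τ q) ∨
    ∃ j, τ.A j ∈ S ∧ p ≤ τ.c j ∧ FEq σ (τ.A j) p
  eq_dec : ∀ σ ∈ S, ∀ τ ∈ S, ∃ p ∈ D, FEq σ τ p ∨
    (∃ i, σ.A i ∈ S ∧ p ≤ σ.c i ∧ ∀ q, q ≤ p → ¬ FMem (σ.A i) τ q) ∨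
    (∃ j, τ.A j ∈ S ∧ p ≤ τ.c j ∧ ∀ q, q ≤ p → ¬ FMem (τ.A j) σ q)
  dec : ∀ (n : ℕ) (φ : Fm n) (v : Fin n → Name P), (∀ i, v i ∈ S) →
    ∃ p ∈ D, Forces φ v p ∨ ∀ q, q ≤ p → ¬ Forces φ v q
  wit : ∀ (n : ℕ) (ψ : Fm (n + 1)) (v : Fin n → Name P), (∀ i, v i ∈ S) →
    ∃ p ∈ D, (∀ τ q, q ≤ p → ¬ Forces ψ (Fin.cons τ v) q) ∨
      (wit ψ v p ∈ S ∧ Forces ψ (Fin.cons (wit ψ v p) v) p)
  sub : ∀ τ ∈ S, Countable τ.ι → ∀ i, τ.A i ∈ S
  sep_mem : ∀ (n : ℕ) (φ : Fm (n + 1)) (v : Fin n → Name P), (∀ i, v i ∈ S) →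
    ∀ a ∈ S, sepF φ v a ∈ S
  coll_mem : ∀ (n : ℕ) (φ : Fm (n + 2)) (v : Fin n → Name P), (∀ i, v i ∈ S) →
    ∀ a ∈ S, collN φ v a ∈ S
  up_mem : ∀ σ ∈ S, ∀ τ ∈ S, up σ τ ∈ S
  union_mem : ∀ a ∈ S, unionN a ∈ S
  pow_mem : ∀ a ∈ S, powN a ∈ S
  omega_mem : fam (natN P) ∈ S
  ch_mem : ∀ a ∈ S, chN a ∈ S
  least : ∀ a ∈ S, ∀ σ ∈ S, ∃ p ∈ D, (∀ k q, q ≤ p → ¬ FMem (elN a k) σ q) ∨
    ∃ k, elN a k ∈ S ∧ Least a σ k p

/-- Evaluation of a name. -/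
noncomputable def val (S : Set (Name P)) (D : Set P) : Name P → ZFSet.{0}
  | Name.mk ι A c => ZFSet.range (fun x : {i : ι // A i ∈ S ∧ c i ∈ D} => val S D (A x.1))

omit [Preorder P] [OrderTop P] in
theorem mem_val {S : Set (Name P)} {D : Set P} {τ : Name P} {z : ZFSet.{0}} :
    z ∈ val S D τ ↔ ∃ i, τ.A i ∈ S ∧ τ.c i ∈ D ∧ val S D (τ.A i) = z := by
  cases τ with
  | mk ι A c =>
    rw [val, ZFSet.mem_range]
    constructor
    · rintro ⟨⟨i, h1, h2⟩, h3⟩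
      exact ⟨i, h1, h2, h3⟩
    · rintro ⟨i, h1, h2, h3⟩
      exact ⟨⟨i, h1, h2⟩, h3⟩

/-- The model. -/
noncomputable def model (S : Set (Name P)) (D : Set P) [Small.{0} S] : ZFSet.{0} :=
  ZFSet.range (fun τ : S => val S D τ.1)

omit [Preorder P] [OrderTop P] in
theorem mem_model {S : Set (Name P)} {D : Set P} [Small.{0} S] {z : ZFSet.{0}} :
    z ∈ model S D ↔ ∃ τ ∈ S, val S D τ = z := by
  simp [model]

/-- The von Neumann numeral. -/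
def natZ (n : ℕ) : ZFSet.{0} := ZFSet.mk (PSet.ofNat n)

theorem natZ_succ (n : ℕ) : natZ (n + 1) = insert (natZ n) (natZ n) := rfl

theorem mem_natZ {n : ℕ} {z : ZFSet.{0}} : z ∈ natZ n ↔ ∃ i, i < n ∧ natZ i = z := by
  induction n with
  | zero =>
    have : natZ 0 = ∅ := rfl
    simp [this]
  | succ n ih =>
    rw [natZ_succ, ZFSet.mem_insert_iff, ih]
    constructor
    · rintro (rfl | ⟨i, hi, rfl⟩)
      · exact ⟨n, Nat.lt_succ_self n, rfl⟩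
      · exact ⟨i, Nat.lt_succ_of_lt hi, rfl⟩
    · rintro ⟨i, hi, rfl⟩
      rcases Nat.lt_succ_iff_lt_or_eq.1 hi with h | rfl
      · exact Or.inr ⟨i, h, rfl⟩
      · exact Or.inl rfl

theorem natZ_inj {n m : ℕ} (h : natZ n = natZ m) : n = m := by
  rcases lt_trichotomy n m with h1 | h1 | h1
  · have : natZ n ∈ natZ m := mem_natZ.2 ⟨n, h1, rfl⟩
    rw [h] at this
    exact absurd this (ZFSet.mem_irrefl _)
  · exact h1
  · have : natZ m ∈ natZ n := mem_natZ.2 ⟨m, h1, rfl⟩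
    rw [h] at this
    exact absurd this (ZFSet.mem_irrefl _)

theorem mem_omega {z : ZFSet.{0}} : z ∈ ZFSet.omega ↔ ∃ n, natZ n = z := by
  induction z using Quotient.inductionOn with
  | h x =>
    constructor
    · rintro ⟨⟨n⟩, h⟩
      exact ⟨n, (ZFSet.sound h).symm⟩
    · rintro ⟨n, h⟩
      exact ⟨⟨n⟩, ZFSet.exact h.symm⟩

namespace Gen

variable {S : Set (Name P)} {D : Set P}

theorem mem_of_forces (h : Gen S D) {σ τ : Name P} (hσ : σ ∈ S) (hτ : τ ∈ S) {p : P}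
    (hp : p ∈ D) (hm : FMem σ τ p) :
    ∃ j, τ.A j ∈ S ∧ τ.c j ∈ D ∧ ∃ r ∈ D, FEq σ (τ.A j) r := by
  obtain ⟨q, hq, h1 | ⟨j, h1, h2, h3⟩⟩ := h.mem_dec σ hσ τ hτ
  · obtain ⟨r, _, hr1, hr2⟩ := h.dir p hp q hq
    exact absurd (hm.mono hr1) (h1 r hr2)
  · exact ⟨j, h1, h.upc q hq _ h2, q, hq, h3⟩

theorem val_eq_iff (h : Gen S D) {σ : Name P} :
    ∀ {τ : Name P}, σ ∈ S → τ ∈ S → (val S D σ = val S D τ ↔ ∃ p ∈ D, FEq σ τ p) := by
  induction σ using Name.induct with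
  | h σ ih =>
    intro τ hσ hτ
    constructor
    · intro he
      obtain ⟨p, hp, h1 | ⟨i, h1, h2, h3⟩ | ⟨j, h1, h2, h3⟩⟩ := h.eq_dec σ hσ τ hτ
      · exact ⟨p, hp, h1⟩
      · exfalso
        have : val S D (σ.A i) ∈ val S D τ := he ▸ mem_val.2 ⟨i, h1, h.upc p hp _ h2, rfl⟩
        obtain ⟨j, hj1, hj2, hj3⟩ := mem_val.1 this
        obtain ⟨q, hq, h4⟩ := (ih i h1 hj1).1 hj3.symm
        obtain ⟨r, hr, hr1, hr2⟩ := h.dir p hp q hq
        obtain ⟨s, _, hs1, hs2⟩ := h.dir r hr _ hj2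
        exact h3 s (hs1.trans hr1) (FMem.of_eq j hs2 (h4.mono (hs1.trans hr2)))
      · exfalso
        have : val S D (τ.A j) ∈ val S D σ := he ▸ mem_val.2 ⟨j, h1, h.upc p hp _ h2, rfl⟩
        obtain ⟨i, hi1, hi2, hi3⟩ := mem_val.1 this
        obtain ⟨q, hq, h4⟩ := (ih i hi1 h1).1 hi3
        obtain ⟨r, hr, hr1, hr2⟩ := h.dir p hp q hq
        obtain ⟨s, _, hs1, hs2⟩ := h.dir r hr _ hi2
        exact h3 s (hs1.trans hr1) (FMem.of_eq i hs2 (h4.mono (hs1.trans hr2)).symm)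
    · rintro ⟨p, hp, he⟩
      ext z
      constructor
      · intro hz
        obtain ⟨i, h1, h2, rfl⟩ := mem_val.1 hz
        obtain ⟨r, hr, hr1, hr2⟩ := h.dir p hp _ h2
        obtain ⟨j, hj1, hj2, hj3⟩ := h.mem_of_forces h1 hτ hr
          ((FMem.self i hr2).congr_right (he.mono hr1))
        exact mem_val.2 ⟨j, hj1, hj2, ((ih i h1 hj1).2 hj3).symm⟩
      · intro hz
        obtain ⟨j, h1, h2, rfl⟩ := mem_val.1 hz
        obtain ⟨r, hr, hr1, hr2⟩ := h.dir p hp _ h2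
        obtain ⟨i, hi1, hi2, s, hs, hi3⟩ := h.mem_of_forces h1 hσ hr
          ((FMem.self j hr2).congr_right (he.mono hr1).symm)
        exact mem_val.2 ⟨i, hi1, hi2, (ih i hi1 h1).2 ⟨s, hs, hi3.symm⟩⟩

theorem val_mem_iff (h : Gen S D) {σ τ : Name P} (hσ : σ ∈ S) (hτ : τ ∈ S) :
    val S D σ ∈ val S D τ ↔ ∃ p ∈ D, FMem σ τ p := by
  constructor
  · intro hm
    obtain ⟨j, h1, h2, h3⟩ := mem_val.1 hm
    obtain ⟨q, hq, h4⟩ := (h.val_eq_iff hσ h1).1 h3.symm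
    obtain ⟨r, hr, hr1, hr2⟩ := h.dir q hq _ h2
    exact ⟨r, hr, FMem.of_eq j hr2 (h4.mono hr1)⟩
  · rintro ⟨p, hp, hm⟩
    obtain ⟨j, h1, h2, h3⟩ := h.mem_of_forces hσ hτ hp hm
    exact mem_val.2 ⟨j, h1, h2, ((h.val_eq_iff hσ h1).2 h3).symm⟩

omit [Preorder P] [OrderTop P] in
theorem val_cons {n : ℕ} (τ : Name P) (v : Fin n → Name P) :
    (fun i => val S D ((Fin.cons τ v : Fin (n + 1) → Name P) i)) =
      Fin.cons (val S D τ) (fun i => val S D (v i)) := by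
  funext i
  refine Fin.cases ?_ (fun i => ?_) i <;> rfl

omit [Preorder P] [OrderTop P] in
theorem cons_mem {n : ℕ} {τ : Name P} {v : Fin n → Name P} (hτ : τ ∈ S) (hv : ∀ i, v i ∈ S) :
    ∀ i, (Fin.cons τ v : Fin (n + 1) → Name P) i ∈ S := by
  intro i
  refine Fin.cases ?_ (fun i => ?_) i
  · exact hτ
  · exact hv i

variable [Small.{0} S]

theorem truth (h : Gen S D) {n : ℕ} (φ : Fm n) : ∀ v : Fin n → Name P, (∀ i, v i ∈ S) →
    (Sat (model S D) φ (fun i => val S D (v i)) ↔ ∃ p ∈ D, Forces φ v p) := by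
  induction φ with
  | mem i j => exact fun v hv => h.val_mem_iff (hv i) (hv j)
  | eq i j => exact fun v hv => h.val_eq_iff (hv i) (hv j)
  | neg φ ih =>
    intro v hv
    change ¬ _ ↔ _
    rw [ih v hv]
    constructor
    · intro hn
      obtain ⟨p, hp, h1 | h1⟩ := h.dec _ φ v hv
      · exact absurd ⟨p, hp, h1⟩ hn
      · exact ⟨p, hp, h1⟩
    · rintro ⟨p, hp, h1⟩ ⟨q, hq, h2⟩
      obtain ⟨r, _, hr1, hr2⟩ := h.dir p hp q hq
      exact h1 r hr1 (h2.mono hr2)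
  | and φ ψ ih1 ih2 =>
    intro v hv
    change _ ∧ _ ↔ _
    rw [ih1 v hv, ih2 v hv]
    constructor
    · rintro ⟨⟨p, hp, h1⟩, ⟨q, hq, h2⟩⟩
      obtain ⟨r, hr, hr1, hr2⟩ := h.dir p hp q hq
      exact ⟨r, hr, h1.mono hr1, h2.mono hr2⟩
    · rintro ⟨p, hp, h1, h2⟩
      exact ⟨⟨p, hp, h1⟩, ⟨p, hp, h2⟩⟩
  | all φ ih =>
    intro v hv
    change (∀ x ∈ model S D, _) ↔ _
    constructor
    · intro ha
      obtain ⟨p, hp, h1 | ⟨h1, h2⟩⟩ := h.wit _ (Fm.neg φ) v hv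
      · refine ⟨p, hp, fun τ => Forces.dense fun q hq => ?_⟩
        have := h1 τ q hq
        change ¬ ∀ r, r ≤ q → ¬ _ at this
        push Not at this
        exact this
      · exfalso
        have h3 := ha _ (mem_model.2 ⟨_, h1, rfl⟩)
        rw [← val_cons, ih _ (cons_mem h1 hv)] at h3
        obtain ⟨q, hq, h4⟩ := h3
        obtain ⟨r, _, hr1, hr2⟩ := h.dir p hp q hq
        exact h2 r hr1 (h4.mono hr2)
    · rintro ⟨p, hp, h1⟩ x hx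
      obtain ⟨τ, hτ, rfl⟩ := mem_model.1 hx
      rw [← val_cons, ih _ (cons_mem hτ hv)]
      exact ⟨p, hp, h1 τ⟩

omit [Preorder P] [OrderTop P] in
theorem model_trans : (model S D).IsTransitive := by
  intro y hy z hz
  obtain ⟨τ, _, rfl⟩ := mem_model.1 hy
  obtain ⟨i, h1, _, rfl⟩ := mem_val.1 hz
  exact mem_model.2 ⟨_, h1, rfl⟩

omit [Small.{0} S] in
theorem mem_val_fam (h : Gen S D) {κ : Type} {ρ : κ → Name P} (hρ : ∀ k, ρ k ∈ S)
    {z : ZFSet.{0}} : z ∈ val S D (fam ρ) ↔ ∃ k, val S D (ρ k) = z := by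
  rw [mem_val]
  exact ⟨fun ⟨k, _, _, h3⟩ => ⟨k, h3⟩, fun ⟨k, h3⟩ => ⟨k, hρ k, h.top, h3⟩⟩

omit [Small.{0} S] in
theorem val_up (h : Gen S D) {σ τ : Name P} (hσ : σ ∈ S) (hτ : τ ∈ S) :
    val S D (up σ τ) = {val S D σ, val S D τ} := by
  ext z
  rw [up, h.mem_val_fam (fun b => by cases b <;> assumption), ZFSet.mem_pair]
  constructor
  · rintro ⟨b, rfl⟩
    cases b
    · exact Or.inr rfl
    · exact Or.inl rfl
  · rintro (rfl | rfl)
    · exact ⟨true, rfl⟩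
    · exact ⟨false, rfl⟩

omit [Small.{0} S] in
theorem op_mem (h : Gen S D) {σ τ : Name P} (hσ : σ ∈ S) (hτ : τ ∈ S) : op σ τ ∈ S :=
  h.up_mem _ (h.up_mem _ hσ _ hσ) _ (h.up_mem _ hσ _ hτ)

omit [Small.{0} S] in
theorem of_op_mem (h : Gen S D) {σ τ : Name P} (ho : op σ τ ∈ S) : σ ∈ S ∧ τ ∈ S := by
  have h1 : up σ τ ∈ S := h.sub _ ho (inferInstanceAs (Countable Bool)) false
  exact ⟨h.sub _ h1 (inferInstanceAs (Countable Bool)) true,
    h.sub _ h1 (inferInstanceAs (Countable Bool)) false⟩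

omit [Small.{0} S] in
theorem val_op (h : Gen S D) {σ τ : Name P} (hσ : σ ∈ S) (hτ : τ ∈ S) :
    val S D (op σ τ) = ZFSet.pair (val S D σ) (val S D τ) := by
  rw [op, h.val_up (h.up_mem _ hσ _ hσ) (h.up_mem _ hσ _ hτ), h.val_up hσ hσ, h.val_up hσ hτ,
    ZFSet.pair_eq_singleton]
  rfl

omit [Small.{0} S] in
theorem natN_mem (h : Gen S D) (n : ℕ) : natN P n ∈ S :=
  h.sub _ h.omega_mem (inferInstanceAs (Countable ℕ)) n

omit [Small.{0} S] in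
theorem val_natN (h : Gen S D) (n : ℕ) : val S D (natN P n) = natZ n := by
  induction n using Nat.strong_induction_on with
  | h n ih =>
    ext z
    rw [natN_eq, h.mem_val_fam (fun i => h.natN_mem _), mem_natZ]
    constructor
    · rintro ⟨i, rfl⟩
      exact ⟨i.1, i.2, (ih i.1 i.2).symm⟩
    · rintro ⟨i, hi, rfl⟩
      exact ⟨⟨i, hi⟩, ih i hi⟩

omit [Small.{0} S] in
theorem val_omega (h : Gen S D) : val S D (fam (natN P)) = ZFSet.omega := by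
  ext z
  rw [h.mem_val_fam h.natN_mem, mem_omega]
  simp only [h.val_natN]

omit [Small.{0} S] in
theorem val_mem_fam (h : Gen S D) {κ : Type} {ρ : κ → Name P} {k : κ} (hk : ρ k ∈ S) :
    val S D (ρ k) ∈ val S D (fam ρ) :=
  mem_val.2 ⟨k, hk, h.top, rfl⟩

theorem val_sepF (h : Gen S D) {n : ℕ} (φ : Fm (n + 1)) {v : Fin n → Name P}
    (hv : ∀ i, v i ∈ S) {a : Name P} (ha : a ∈ S) :
    val S D (sepF φ v a) = (val S D a).sep
      (fun x => Sat (model S D) φ (Fin.cons x (fun i => val S D (v i)))) := by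
  have hs := h.sep_mem n φ v hv a ha
  ext z
  rw [ZFSet.mem_sep]
  constructor
  · intro hz
    obtain ⟨σ, hσ, rfl⟩ := mem_model.1 (model_trans _ (mem_model.2 ⟨_, hs, rfl⟩) hz)
    obtain ⟨p, hp, h1⟩ := (h.val_mem_iff hσ hs).1 hz
    obtain ⟨h2, h3⟩ := (FMem_sepN (good_forces φ v)).1 h1
    refine ⟨(h.val_mem_iff hσ ha).2 ⟨p, hp, h2⟩, ?_⟩
    rw [← val_cons, h.truth φ _ (cons_mem hσ hv)]
    exact ⟨p, hp, h3⟩
  · rintro ⟨hz, hφ⟩
    obtain ⟨σ, hσ, rfl⟩ := mem_model.1 (model_trans _ (mem_model.2 ⟨_, ha, rfl⟩) hz)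
    rw [← val_cons, h.truth φ _ (cons_mem hσ hv)] at hφ
    obtain ⟨p, hp, h1⟩ := (h.val_mem_iff hσ ha).1 hz
    obtain ⟨q, hq, h2⟩ := hφ
    obtain ⟨r, hr, hr1, hr2⟩ := h.dir p hp q hq
    exact (h.val_mem_iff hσ hs).2
      ⟨r, hr, (FMem_sepN (good_forces φ v)).2 ⟨h1.mono hr1, h2.mono hr2⟩⟩

theorem separation (h : Gen S D) (n : ℕ) (φ : Fm (n + 1)) (v : Fin n → ZFSet.{0})
    (hv : ∀ i, v i ∈ model S D) (a : ZFSet.{0}) (ha : a ∈ model S D) :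
    a.sep (fun x => Sat (model S D) φ (Fin.cons x v)) ∈ model S D := by
  choose w hw1 hw2 using fun i => mem_model.1 (hv i)
  obtain ⟨a', ha', rfl⟩ := mem_model.1 ha
  obtain rfl : (fun i => val S D (w i)) = v := funext hw2
  exact mem_model.2 ⟨_, h.sep_mem n φ w hw1 a' ha', h.val_sepF φ hw1 ha'⟩

theorem isZFC (h : Gen S D) : IsZFC (model S D) where
  trans := model_trans
  pairing a ha b hb := by
    obtain ⟨σ, hσ, rfl⟩ := mem_model.1 ha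
    obtain ⟨τ, hτ, rfl⟩ := mem_model.1 hb
    exact mem_model.2 ⟨_, h.up_mem _ hσ _ hτ, h.val_up hσ hτ⟩
  union a ha := by
    obtain ⟨τ, hτ, rfl⟩ := mem_model.1 ha
    have hu := h.union_mem τ hτ
    have := h.separation 1
      (Fm.neg (Fm.all (Fm.neg (Fm.and (Fm.mem 0 2) (Fm.mem 1 0))))) ![val S D τ]
      (fun i => by fin_cases i; exact ha) _ (mem_model.2 ⟨_, hu, rfl⟩)
    convert this using 1
    ext y
    rw [ZFSet.mem_sep, ZFSet.mem_sUnion]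
    change _ ↔ _ ∧ ¬ ∀ z ∈ model S D, ¬ (z ∈ val S D τ ∧ y ∈ z)
    constructor
    · rintro ⟨z, hz, hy⟩
      refine ⟨?_, fun hn => hn z (model_trans _ ha hz) ⟨hz, hy⟩⟩
      obtain ⟨i, _, _, rfl⟩ := mem_val.1 hz
      obtain ⟨j, hj, _, rfl⟩ := mem_val.1 hy
      exact h.val_mem_fam (ρ := elN τ) (k := ⟨i, j⟩) hj
    · rintro ⟨_, hn⟩
      push Not at hn
      obtain ⟨z, _, h1, h2⟩ := hn
      exact ⟨z, h1, h2⟩
  power a ha := by
    obtain ⟨τ, hτ, rfl⟩ := mem_model.1 ha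
    have hu := h.pow_mem τ hτ
    have hb : val S D (powN τ) ∈ model S D := mem_model.2 ⟨_, hu, rfl⟩
    have := h.separation 1
      (Fm.all (Fm.neg (Fm.and (Fm.mem 0 1) (Fm.neg (Fm.mem 0 2))))) ![val S D τ]
      (fun i => by fin_cases i; exact ha) _ hb
    convert this using 1
    ext x
    rw [ZFSet.mem_sep, ZFSet.mem_inter, ZFSet.mem_powerset]
    change _ ↔ _ ∧ ∀ z ∈ model S D, ¬ (z ∈ x ∧ ¬ z ∈ val S D τ)
    constructor
    · rintro ⟨hx1, hx2⟩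
      refine ⟨?_, fun z _ hz => hz.2 (hx1 hz.1)⟩
      obtain ⟨σ, hσ, rfl⟩ := mem_model.1 hx2
      have hv : ∀ i, (![σ] : Fin 1 → Name P) i ∈ S := fun i => by fin_cases i; exact hσ
      have h1 := h.sep_mem 1 (Fm.mem 0 1) ![σ] hv τ hτ
      have h2 := h.val_sepF (Fm.mem 0 1) hv hτ
      have h3 : val S D (sepF (Fm.mem 0 1) ![σ] τ) = val S D σ := by
        rw [h2]
        ext z
        rw [ZFSet.mem_sep]
        change _ ∧ z ∈ val S D σ ↔ _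
        exact ⟨fun hz => hz.2, fun hz => ⟨hx1 hz, hz⟩⟩
      rw [← h3]
      exact h.val_mem_fam (ρ := fun T : Set (τ.ι × P) => subN τ T)
        (k := {x | x.2 ≤ τ.c x.1 ∧ Forces (Fm.mem 0 1) (Fin.cons (τ.A x.1) ![σ]) x.2}) h1
    · rintro ⟨hx1, hx2⟩
      have hx : x ∈ model S D := model_trans _ hb hx1
      refine ⟨fun z hz => ?_, hx⟩
      by_contra hn
      exact hx2 z (model_trans _ hx hz) ⟨hz, hn⟩
  infinity := mem_model.2 ⟨_, h.omega_mem, h.val_omega⟩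
  separation := h.separation
  collection n φ v hv a ha hex := by
    choose w hw1 hw2 using fun i => mem_model.1 (hv i)
    obtain ⟨a', ha', rfl⟩ := mem_model.1 ha
    obtain rfl : (fun i => val S D (w i)) = v := funext hw2
    have hc := h.coll_mem n φ w hw1 a' ha'
    refine ⟨_, mem_model.2 ⟨_, hc, rfl⟩, fun x hx => ?_⟩
    obtain ⟨y, hy, hφ⟩ := hex x hx
    obtain ⟨i, hi, _, rfl⟩ := mem_val.1 hx
    obtain ⟨τ, hτ, rfl⟩ := mem_model.1 hy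
    have hv' := cons_mem hi hw1
    rw [← val_cons, ← val_cons, h.truth φ _ (cons_mem hτ hv')] at hφ
    obtain ⟨q, hq, h1⟩ := hφ
    obtain ⟨p, hp, h2 | ⟨h2, h3⟩⟩ := h.wit _ φ _ hv'
    · obtain ⟨r, _, hr1, hr2⟩ := h.dir p hp q hq
      exact absurd (h1.mono hr2) (h2 τ r hr1)
    · refine ⟨_, h.val_mem_fam
        (ρ := fun x : a'.ι × P => ZFCForcing.wit φ (Fin.cons (a'.A x.1) w) x.2)
        (k := (i, p)) h2, ?_⟩
      rw [← val_cons, ← val_cons, h.truth φ _ (cons_mem h2 hv')]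
      exact ⟨p, hp, h3⟩
  choice a ha hne := by
    obtain ⟨τ, hτ, rfl⟩ := mem_model.1 ha
    have hf : ∀ z, z ∈ val S D (chN τ) ↔ ∃ i k p, p ∈ D ∧ p ≤ τ.c i ∧ Least τ (τ.A i) k p ∧
        τ.A i ∈ S ∧ elN τ k ∈ S ∧ z = ZFSet.pair (val S D (τ.A i)) (val S D (elN τ k)) := by
      intro z
      rw [mem_val]
      constructor
      · rintro ⟨⟨⟨i, k, p⟩, h1, h2⟩, h3, h4, rfl⟩
        obtain ⟨h5, h6⟩ := h.of_op_mem h3
        exact ⟨i, k, p, h4, h1, h2, h5, h6, h.val_op h5 h6⟩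
      · rintro ⟨i, k, p, h1, h2, h3, h4, h5, rfl⟩
        exact ⟨⟨(i, k, p), h2, h3⟩, h.op_mem h4 h5, h1, h.val_op h4 h5⟩
    have hmem : ∀ x y : ZFSet.{0}, ZFSet.pair x y ∈ val S D (chN τ) → x ∈ val S D τ ∧ y ∈ x := by
      intro x y hxy
      obtain ⟨i, k, p, h1, h2, h3, h4, h5, h6⟩ := (hf _).1 hxy
      obtain ⟨rfl, rfl⟩ := ZFSet.pair_inj.1 h6
      exact ⟨mem_val.2 ⟨i, h4, h.upc p h1 _ h2, rfl⟩, (h.val_mem_iff h5 h4).2 ⟨p, h1, h3.1⟩⟩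
    refine ⟨_, mem_model.2 ⟨_, h.ch_mem τ hτ, rfl⟩, ⟨fun z hz => ?_, fun x hx => ?_⟩,
      fun x y hxy => (hmem x y hxy).2⟩
    · obtain ⟨i, k, p, _, _, _, _, _, h6⟩ := (hf _).1 hz
      rw [h6] at hz ⊢
      obtain ⟨h7, h8⟩ := hmem _ _ hz
      exact ZFSet.pair_mem_prod.2 ⟨h7, ZFSet.mem_sUnion.2 ⟨_, h7, h8⟩⟩
    · obtain ⟨i, hi, hi2, rfl⟩ := mem_val.1 hx
      obtain ⟨p, hp, h1 | ⟨k, h1, h2⟩⟩ := h.least τ hτ _ hi
      · exfalso
        apply hne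
        have : val S D (τ.A i) = ∅ := by
          rw [ZFSet.eq_empty]
          intro y hy
          obtain ⟨j, _, hj, rfl⟩ := mem_val.1 hy
          obtain ⟨r, _, hr1, hr2⟩ := h.dir p hp _ hj
          exact h1 ⟨i, j⟩ r hr1 (FMem.self j hr2)
        exact this ▸ hx
      · obtain ⟨r, hr, hr1, hr2⟩ := h.dir p hp _ hi2
        refine ⟨val S D (elN τ k), (hf _).2 ⟨i, k, r, hr, hr2,
          ⟨h2.1.mono hr1, fun k' hk' q hq => h2.2 k' hk' q (hq.trans hr1)⟩, hi, h1, rfl⟩, ?_⟩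
        intro y hy
        obtain ⟨i', k', p', h3, _, h4, h5, _, h6⟩ := (hf _).1 hy
        obtain ⟨h7, rfl⟩ := ZFSet.pair_inj.1 h6
        obtain ⟨q, hq, h8⟩ := (h.val_eq_iff hi h5).1 h7
        obtain ⟨s, hs, hs1, hs2⟩ := h.dir p hp q hq
        obtain ⟨t, _, ht1, ht2⟩ := h.dir s hs p' h3
        rcases trichotomous_of WellOrderingRel k k' with h9 | h9 | h9
        · exact absurd ((h2.1.mono (ht1.trans hs1)).congr_right (h8.mono (ht1.trans hs2)))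
            (h4.2 k h9 t ht2)
        · rw [h9]
        · exact absurd ((h4.1.mono ht2).congr_right (h8.mono (ht1.trans hs2)).symm)
            (h2.2 k' h9 t (ht1.trans hs1))

end Gen

end Pool.Agent.Lib.ZFCForcing
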