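import Mathlib
import Pool.Agent.Lib.ZFCForcing.Generic

set_option autoImplicit false

namespace Pool.Agent.Lib.ZFCForcing

open Set

/-- A countable family of density requirements. -/
structure Req (P : Type) [Preorder P] where
  I : Type
  cnt : Countable I
  ar : I → Type
  fin : ∀ i, Finite (ar i)
  Ψ : ∀ i, (ar i → Name P) → P → Set (Name P) → Prop
  dense : ∀ i a p, ∃ q, q ≤ p ∧ ∃ W, W.Countable ∧ Ψ i a q W

variable {P : Type} [Preorder P] [OrderTop P]

theorem henkin2 (L : List (Req P)) :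
    ∃ (S : Set (Name P)) (D : Set P), S.Countable ∧ (∀ p ∈ D, ∀ q, p ≤ q → q ∈ D) ∧
      (∀ p ∈ D, ∀ q ∈ D, ∃ r ∈ D, r ≤ p ∧ r ≤ q) ∧ ⊤ ∈ D ∧
      ∀ R ∈ L, ∀ i a, (∀ k, a k ∈ S) → ∀ p₀ ∈ D,
        ∃ p ∈ D, p ≤ p₀ ∧ ∃ W, W ⊆ S ∧ R.Ψ i a p W := by
  classical
  have : Nonempty (Name P) := ⟨natN P 0⟩
  have : ∀ k : Fin L.length, Countable (L.get k).I := fun k => (L.get k).cnt
  have : ∀ i : Σ k : Fin L.length, (L.get k).I, Finite ((L.get i.1).ar i.2) :=
    fun i => (L.get i.1).fin i.2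
  obtain ⟨S, c, hS, hc, -, hreq⟩ := henkin (P := P) (X := Name P)
    (I := Σ k : Fin L.length, (L.get k).I) (fun i => (L.get i.1).ar i.2)
    (fun i x p w => ∃ W, W ⊆ range w ∧ (L.get i.1).Ψ i.2 x p W) (by
      intro i x p
      obtain ⟨q, hq, W, h1, h4⟩ := (L.get i.1).dense i.2 x p
      obtain ⟨w, hw⟩ := countable_iff_exists_subset_range.1 h1
      exact ⟨q, hq, w, W, hw, h4⟩) ⊤
  refine ⟨S, {p | ∃ n, c n ≤ p}, hS, ?_, ?_, ⟨0, le_top⟩, ?_⟩
  · rintro p ⟨n, hn⟩ q hq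
    exact ⟨n, hn.trans hq⟩
  · rintro p ⟨n, hn⟩ q ⟨m, hm⟩
    exact ⟨c (max n m), ⟨_, le_rfl⟩, le_trans (hc (le_max_left n m)) hn,
      le_trans (hc (le_max_right n m)) hm⟩
  · rintro R hR i a ha p₀ ⟨N, hN⟩
    obtain ⟨k, rfl⟩ := List.get_of_mem hR
    obtain ⟨n, hn, w, hw, W, h1, h3⟩ := hreq ⟨k, i⟩ a ha N
    exact ⟨c n, ⟨n, le_rfl⟩, (hc hn).trans hN, W, h1.trans (range_subset_iff.2 hw), h3⟩

def Fm.code : {n : ℕ} → Fm n → ℕ
  | _, Fm.mem i j => Nat.pair 0 (Nat.pair i j)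
  | _, Fm.eq i j => Nat.pair 1 (Nat.pair i j)
  | _, Fm.neg φ => Nat.pair 2 φ.code
  | _, Fm.and φ ψ => Nat.pair 3 (Nat.pair φ.code ψ.code)
  | _, Fm.all φ => Nat.pair 4 φ.code

theorem Fm.code_inj {n : ℕ} (φ : Fm n) : ∀ ψ : Fm n, φ.code = ψ.code → φ = ψ := by
  induction φ with
  | mem i j => intro ψ h; cases ψ <;> simp_all [Fm.code, Nat.pair_eq_pair, Fin.ext_iff]
  | eq i j => intro ψ h; cases ψ <;> simp_all [Fm.code, Nat.pair_eq_pair, Fin.ext_iff]
  | neg φ ih =>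
    intro ψ h
    cases ψ <;> simp [Fm.code, Nat.pair_eq_pair] at h ⊢
    exact ih _ h
  | and φ φ' ih ih' =>
    intro ψ h
    cases ψ <;> simp [Fm.code, Nat.pair_eq_pair] at h ⊢
    exact ⟨ih _ h.1, ih' _ h.2⟩
  | all φ ih =>
    intro ψ h
    cases ψ <;> simp [Fm.code, Nat.pair_eq_pair] at h ⊢
    exact ih _ h

instance instCountableFm (n : ℕ) : Countable (Fm n) :=
  Function.Injective.countable (f := Fm.code) fun φ ψ h => Fm.code_inj φ ψ h

/-- A requirement that only adds one name. -/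
def reqClose (I : Type) [Countable I] (ar : I → Type) [∀ i, Finite (ar i)]
    (f : ∀ i, (ar i → Name P) → Name P) : Req P where
  I := I
  cnt := inferInstance
  ar := ar
  fin := inferInstance
  Ψ i a _ W := f i a ∈ W
  dense i a p := ⟨p, le_rfl, {f i a}, countable_singleton _, rfl⟩

variable (P)

def reqMem : Req P where
  I := Unit
  cnt := inferInstance
  ar _ := Bool
  fin := inferInstance
  Ψ _ a p W := (∀ q, q ≤ p → ¬ FMem (a true) (a false) q) ∨
    ∃ j, (a false).A j ∈ W ∧ p ≤ (a false).c j ∧ FEq (a true) ((a false).A j) p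
  dense _ a p := by
    by_cases h : ∃ q, q ≤ p ∧ FMem (a true) (a false) q
    · obtain ⟨q, h1, h2⟩ := h
      obtain ⟨r, h3, j, h4, h5⟩ := h2 q le_rfl
      exact ⟨r, h3.trans h1, {(a false).A j}, countable_singleton _, Or.inr ⟨j, rfl, h4, h5⟩⟩
    · exact ⟨p, le_rfl, ∅, countable_empty, Or.inl fun q hq h' => h ⟨q, hq, h'⟩⟩

def reqEq : Req P where
  I := Unit
  cnt := inferInstance
  ar _ := Bool
  fin := inferInstance
  Ψ _ a p W := FEq (a true) (a false) p ∨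
    (∃ i, (a true).A i ∈ W ∧ p ≤ (a true).c i ∧
      ∀ q, q ≤ p → ¬ FMem ((a true).A i) (a false) q) ∨
    (∃ j, (a false).A j ∈ W ∧ p ≤ (a false).c j ∧
      ∀ q, q ≤ p → ¬ FMem ((a false).A j) (a true) q)
  dense _ a p := by
    by_cases h : FEq (a true) (a false) p
    · exact ⟨p, le_rfl, ∅, countable_empty, Or.inl h⟩
    · rw [FEq_iff, not_and_or] at h
      rcases h with h | h
      · push Not at h
        obtain ⟨i, q, h1, h2, h3⟩ := h
        obtain ⟨r, h4, h5⟩ := exists_not_FMem h3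
        exact ⟨r, h4.trans h1, {(a true).A i}, countable_singleton _,
          Or.inr (Or.inl ⟨i, rfl, h4.trans h2, h5⟩)⟩
      · push Not at h
        obtain ⟨i, q, h1, h2, h3⟩ := h
        obtain ⟨r, h4, h5⟩ := exists_not_FMem h3
        exact ⟨r, h4.trans h1, {(a false).A i}, countable_singleton _,
          Or.inr (Or.inr ⟨i, rfl, h4.trans h2, h5⟩)⟩

def reqDec : Req P where
  I := Σ n, Fm n
  cnt := inferInstance
  ar i := Fin i.1
  fin := inferInstance
  Ψ i a p _ := Forces i.2 a p ∨ ∀ q, q ≤ p → ¬ Forces i.2 a q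
  dense i a p := by
    by_cases h : ∃ q, q ≤ p ∧ Forces i.2 a q
    · obtain ⟨q, h1, h2⟩ := h
      exact ⟨q, h1, ∅, countable_empty, Or.inl h2⟩
    · exact ⟨p, le_rfl, ∅, countable_empty, Or.inr fun q hq h' => h ⟨q, hq, h'⟩⟩

def reqWit : Req P where
  I := Σ n, Fm (n + 1)
  cnt := inferInstance
  ar i := Fin i.1
  fin := inferInstance
  Ψ i a p W := (∀ τ q, q ≤ p → ¬ Forces i.2 (Fin.cons τ a) q) ∨
    (wit i.2 a p ∈ W ∧ Forces i.2 (Fin.cons (wit i.2 a p) a) p)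
  dense i a p := by
    by_cases h : ∃ τ q, q ≤ p ∧ Forces i.2 (Fin.cons τ a) q
    · obtain ⟨τ, q, h1, h2⟩ := h
      exact ⟨q, h1, {wit i.2 a q}, countable_singleton _, Or.inr ⟨rfl, forces_wit h2⟩⟩
    · exact ⟨p, le_rfl, ∅, countable_empty, Or.inl fun τ q hq h' => h ⟨τ, q, hq, h'⟩⟩

def reqSub : Req P where
  I := Unit
  cnt := inferInstance
  ar _ := Unit
  fin := inferInstance
  Ψ _ a _ W := Countable (a ()).ι → ∀ i, (a ()).A i ∈ W
  dense _ a p := by
    by_cases h : Countable (a ()).ι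
    · exact ⟨p, le_rfl, range (a ()).A, countable_range _, fun _ i => ⟨i, rfl⟩⟩
    · exact ⟨p, le_rfl, ∅, countable_empty, fun h' => absurd h' h⟩

def reqSep : Req P := reqClose (Σ n, Fm (n + 1)) (fun i => Option (Fin i.1))
  (fun i a => sepF i.2 (fun k => a (some k)) (a none))

noncomputable def reqColl : Req P := reqClose (Σ n, Fm (n + 2)) (fun i => Option (Fin i.1))
  (fun i a => collN i.2 (fun k => a (some k)) (a none))

def reqUp : Req P := reqClose Unit (fun _ => Bool) (fun _ a => up (a true) (a false))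

def reqUnion : Req P := reqClose Unit (fun _ => Unit) (fun _ a => unionN (a ()))

def reqPow : Req P := reqClose Unit (fun _ => Unit) (fun _ a => powN (a ()))

def reqOmega : Req P := reqClose Unit (fun _ => Empty) (fun _ _ => fam (natN P))

def reqCh : Req P := reqClose Unit (fun _ => Unit) (fun _ a => chN (a ()))

def reqLeast : Req P where
  I := Unit
  cnt := inferInstance
  ar _ := Bool
  fin := inferInstance
  Ψ _ a p W := (∀ k q, q ≤ p → ¬ FMem (elN (a true) k) (a false) q) ∨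
    ∃ k, elN (a true) k ∈ W ∧ Least (a true) (a false) k p
  dense _ a p := by
    by_cases h : ∃ k q, q ≤ p ∧ FMem (elN (a true) k) (a false) q
    · obtain ⟨k, ⟨q, h1, h2⟩, h3⟩ := (IsWellFounded.wf (r := WellOrderingRel)).has_min
        {k | ∃ q, q ≤ p ∧ FMem (elN (a true) k) (a false) q} h
      exact ⟨q, h1, {elN (a true) k}, countable_singleton _, Or.inr ⟨k, rfl, h2,
        fun k' hk' r hr h4 => h3 k' ⟨r, hr.trans h1, h4⟩ hk'⟩⟩
    · exact ⟨p, le_rfl, ∅, countable_empty, Or.inl fun k q hq h' => h ⟨k, q, hq, h'⟩⟩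

variable {P}

/-- A countable generic system that meets a given list of further requirements. -/
theorem exists_gen (L : List (Req P)) :
    ∃ (S : Set (Name P)) (D : Set P), S.Countable ∧ Gen S D ∧
      ∀ R ∈ L, ∀ i a, (∀ k, a k ∈ S) → ∀ p₀ ∈ D,
        ∃ p ∈ D, p ≤ p₀ ∧ ∃ W, W ⊆ S ∧ R.Ψ i a p W := by
  obtain ⟨S, D, hS, hup, hdir, htop, hreq₀⟩ := henkin2
    ([reqMem P, reqEq P, reqDec P, reqWit P, reqSub P, reqSep P, reqColl P, reqUp P, reqUnion P,
      reqPow P, reqOmega P, reqCh P, reqLeast P] ++ L)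
  refine ⟨S, D, hS, ?_, fun R hR => hreq₀ R (List.mem_append_right _ hR)⟩
  have hreq := fun R hR i a ha => (hreq₀ R hR i a ha ⊤ htop).imp fun p hp => And.intro hp.1 hp.2.2
  have e0 : ∀ k : Empty, (k.elim : Name P) ∈ S := fun k => k.elim
  have hb2 : ∀ {σ τ : Name P}, σ ∈ S → τ ∈ S → ∀ b : Bool, (cond b σ τ) ∈ S := by
    intro σ τ h1 h2 b
    cases b <;> assumption
  exact
    { upc := hup
      dir := hdir
      top := htop
      mem_dec := fun σ hσ τ hτ => by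
        obtain ⟨p, hp, W, hW, h⟩ := hreq (reqMem P) (by simp) () (fun b => cond b σ τ) (hb2 hσ hτ)
        exact ⟨p, hp, Or.imp id (fun ⟨j, h1, h2⟩ => ⟨j, hW h1, h2⟩) h⟩
      eq_dec := fun σ hσ τ hτ => by
        obtain ⟨p, hp, W, hW, h⟩ := hreq (reqEq P) (by simp) () (fun b => cond b σ τ) (hb2 hσ hτ)
        exact ⟨p, hp, Or.imp id (Or.imp (fun ⟨j, h1, h2⟩ => ⟨j, hW h1, h2⟩)
          (fun ⟨j, h1, h2⟩ => ⟨j, hW h1, h2⟩)) h⟩
      dec := fun n φ v hv => by
        obtain ⟨p, hp, W, hW, h⟩ := hreq (reqDec P) (by simp) ⟨n, φ⟩ v hv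
        exact ⟨p, hp, h⟩
      wit := fun n φ v hv => by
        obtain ⟨p, hp, W, hW, h⟩ := hreq (reqWit P) (by simp) ⟨n, φ⟩ v hv
        exact ⟨p, hp, Or.imp id (fun h => ⟨hW h.1, h.2⟩) h⟩
      sub := fun τ hτ hc i => by
        obtain ⟨p, hp, W, hW, h⟩ := hreq (reqSub P) (by simp) () (fun _ => τ) (fun _ => hτ)
        exact hW (h hc i)
      sep_mem := fun n φ v hv a ha => by
        obtain ⟨p, hp, W, hW, h⟩ := hreq (reqSep P) (by simp) ⟨n, φ⟩
          (fun o => Option.elim o a v) (by rintro (_ | k); exacts [ha, hv k])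
        exact hW h
      coll_mem := fun n φ v hv a ha => by
        obtain ⟨p, hp, W, hW, h⟩ := hreq (reqColl P) (by simp) ⟨n, φ⟩
          (fun o => Option.elim o a v) (by rintro (_ | k); exacts [ha, hv k])
        exact hW h
      up_mem := fun σ hσ τ hτ => by
        obtain ⟨p, hp, W, hW, h⟩ := hreq (reqUp P) (by simp) () (fun b => cond b σ τ) (hb2 hσ hτ)
        exact hW h
      union_mem := fun τ hτ => by
        obtain ⟨p, hp, W, hW, h⟩ := hreq (reqUnion P) (by simp) () (fun _ => τ) (fun _ => hτ)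
        exact hW h
      pow_mem := fun τ hτ => by
        obtain ⟨p, hp, W, hW, h⟩ := hreq (reqPow P) (by simp) () (fun _ => τ) (fun _ => hτ)
        exact hW h
      omega_mem := by
        obtain ⟨p, hp, W, hW, h⟩ := hreq (reqOmega P) (by simp) () Empty.elim e0
        exact hW h
      ch_mem := fun τ hτ => by
        obtain ⟨p, hp, W, hW, h⟩ := hreq (reqCh P) (by simp) () (fun _ => τ) (fun _ => hτ)
        exact hW h
      least := fun σ hσ τ hτ => by
        obtain ⟨p, hp, W, hW, h⟩ := hreq (reqLeast P) (by simp) () (fun b => cond b σ τ)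
          (hb2 hσ hτ)
        exact ⟨p, hp, Or.imp id (fun ⟨j, h1, h2⟩ => ⟨j, hW h1, h2⟩) h⟩ }

omit [OrderTop P] in
/-- In a countably closed order one condition decides countably many questions. -/
theorem decide_all (hcl : ∀ c : ℕ → P, Antitone c → ∃ q, ∀ n, q ≤ c n) {I : Type} [Countable I]
    {β : I → Sort*} (Q : ∀ i, β i → P → Prop) (hQ : ∀ i b p q, Q i b p → q ≤ p → Q i b q)
    (p : P) : ∃ q, q ≤ p ∧ ∀ i, (∃ b, Q i b q) ∨ ∀ b r, r ≤ q → ¬ Q i b r := by
  rcases isEmpty_or_nonempty I with hI | hI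
  · exact ⟨p, le_rfl, fun i => isEmptyElim i⟩
  obtain ⟨e, he⟩ := exists_surjective_nat I
  have step : ∀ i p, ∃ q, q ≤ p ∧ ((∃ b, Q i b q) ∨ ∀ b r, r ≤ q → ¬ Q i b r) := by
    intro i p
    by_cases h : ∃ b r, r ≤ p ∧ Q i b r
    · obtain ⟨b, r, h1, h2⟩ := h
      exact ⟨r, h1, Or.inl ⟨b, h2⟩⟩
    · exact ⟨p, le_rfl, Or.inr fun b r hr h' => h ⟨b, r, hr, h'⟩⟩
  choose f hf1 hf2 using step
  let c : ℕ → P := fun n => Nat.rec p (fun n q => f (e n) q) n
  obtain ⟨q, hq⟩ := hcl c (antitone_nat_of_succ_le fun n => hf1 _ _)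
  refine ⟨q, hq 0, fun i => ?_⟩
  obtain ⟨n, rfl⟩ := he i
  rcases hf2 (e n) (c n) with ⟨b, h⟩ | h
  · exact Or.inl ⟨b, hQ _ _ _ _ h (hq (n + 1))⟩
  · exact Or.inr fun b r hr => h b r (hr.trans (hq (n + 1)))

end Pool.Agent.Lib.ZFCForcing
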